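import Pool.Agent.Work.MP_db9399_ow.Interface

/-!
# MP_db9399, OWN: one batch (block BATCH, helper72)
-/

set_option autoImplicit false

namespace Pool.Agent.Work.MP_db9399_ow.helper72

open Finset Classical
open Pool.Agent.Work.MP_db9399_all (nb mis pr DepOnI)
open Pool.Agent.Work.MP_db9399_en (ex)
open Pool.Agent.Work.MP_db9399_ow

universe u

/-! ### Scopes -/

section scope
variable {V : Type u} [Fintype V] {P M : ℕ}

/-- scope of an event about local minima in `S` -/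
noncomputable def Sc (P : ℕ) (G : SimpleGraph V) (S : Finset V) : Finset (Fin P × V) :=
  univ ×ˢ (S ∪ S.biUnion (nb G))

theorem mem_nb (G : SimpleGraph V) (v w : V) : w ∈ nb G v ↔ G.Adj v w := by
  simp [nb]

theorem mem_Sc (G : SimpleGraph V) (S : Finset V) (y : Fin P × V) :
    y ∈ Sc P G S ↔ ∃ w ∈ insert y.2 (nb G y.2), w ∈ S := by
  unfold Sc
  rw [mem_product, mem_union, mem_biUnion]
  constructor
  · rintro ⟨_, h | ⟨w, h1, h2⟩⟩
    · exact ⟨y.2, mem_insert_self _ _, h⟩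
    · refine ⟨w, mem_insert_of_mem ?_, h1⟩
      rw [mem_nb] at h2 ⊢
      exact h2.symm
  · rintro ⟨w, h1, h2⟩
    refine ⟨mem_univ _, ?_⟩
    rcases mem_insert.1 h1 with h | h
    · left; rw [← h]; exact h2
    · right
      refine ⟨w, h2, ?_⟩
      rw [mem_nb] at h ⊢
      exact h.symm

theorem card_Sc (G : SimpleGraph V) (S : Finset V) {δ : ℕ} (hδ : ∀ v, (nb G v).card ≤ δ) :
    (Sc P G S).card ≤ P * (S.card * (1 + δ)) := by
  unfold Sc
  rw [card_product, card_univ, Fintype.card_fin]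
  refine Nat.mul_le_mul_left _ ((card_union_le _ _).trans ?_)
  have h1 : (S.biUnion (nb G)).card ≤ S.card * δ := by
    refine card_biUnion_le.trans ?_
    exact (sum_le_card_nsmul _ _ _ fun v _ => hδ v).trans (by rw [smul_eq_mul])
  calc S.card + (S.biUnion (nb G)).card ≤ S.card + S.card * δ := Nat.add_le_add_left h1 _
    _ = S.card * (1 + δ) := by ring

theorem mult_Sc {κ : Type u} [Fintype κ] (G : SimpleGraph V) (S : κ → Finset V) {δ : ℕ} {t : ℝ}
    (hδ : ∀ v, (nb G v).card ≤ δ) (ht : ∀ v, ((univ.filter (fun k => v ∈ S k)).card : ℝ) ≤ t)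
    (ht0 : 0 ≤ t) (y : Fin P × V) :
    ((univ.filter (fun k => y ∈ Sc P G (S k))).card : ℝ) ≤ (1 + δ) * t := by
  have h1 : univ.filter (fun k => y ∈ Sc P G (S k)) ⊆
      (insert y.2 (nb G y.2)).biUnion (fun w => univ.filter (fun k => w ∈ S k)) := by
    intro k hk
    rw [mem_filter, mem_Sc] at hk
    obtain ⟨_, w, hw, hwS⟩ := hk
    rw [mem_biUnion]
    exact ⟨w, hw, mem_filter.2 ⟨mem_univ _, hwS⟩⟩
  have h2 : ((univ.filter (fun k => y ∈ Sc P G (S k))).card : ℝ) ≤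
      ∑ w ∈ insert y.2 (nb G y.2), ((univ.filter (fun k => w ∈ S k)).card : ℝ) := by
    exact_mod_cast (card_le_card h1).trans card_biUnion_le
  refine h2.trans ?_
  refine (sum_le_card_nsmul _ _ t fun w _ => ht w).trans ?_
  rw [nsmul_eq_mul]
  refine mul_le_mul_of_nonneg_right ?_ ht0
  have h3 : (insert y.2 (nb G y.2)).card ≤ δ + 1 :=
    (card_insert_le _ _).trans (Nat.succ_le_succ (hδ _))
  have h4 : ((insert y.2 (nb G y.2)).card : ℝ) ≤ (δ : ℝ) + 1 := by exact_mod_cast h3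
  linarith

variable {G : SimpleGraph V} {S : Finset V} {ω ω' : Fin P × V → Fin M}

theorem agree_self (h : ∀ y ∈ Sc P G S, ω y = ω' y) {v : V} (hv : v ∈ S) (b : Fin P) :
    ω (b, v) = ω' (b, v) :=
  h _ ((mem_Sc G S _).2 ⟨v, mem_insert_self _ _, hv⟩)

theorem agree_nb (h : ∀ y ∈ Sc P G S, ω y = ω' y) {v w : V} (hv : v ∈ S) (hw : w ∈ nb G v)
    (b : Fin P) : ω (b, w) = ω' (b, w) := by
  refine h _ ((mem_Sc G S _).2 ⟨v, mem_insert_of_mem ?_, hv⟩)
  rw [mem_nb] at hw ⊢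
  exact hw.symm

theorem off_iff (U : Finset V) (T : ℕ) (h : ∀ y ∈ Sc P G S, ω y = ω' y) {v : V} (hv : v ∈ S)
    (b : Fin P) : v ∈ off U T ω b ↔ v ∈ off U T ω' b := by
  unfold off
  rw [mem_filter, mem_filter, agree_self h hv b]

theorem loc_iff (U : Finset V) (T : ℕ) (h : ∀ y ∈ Sc P G S, ω y = ω' y) {v : V} (hv : v ∈ S)
    (b : Fin P) : v ∈ loc G U T ω b ↔ v ∈ loc G U T ω' b := by
  unfold loc
  rw [mem_filter, mem_filter, agree_self h hv b]
  refine and_congr_right fun _ => and_congr_right fun _ => ?_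
  refine forall_congr' fun w => ?_
  constructor
  · intro h1 hw
    rw [← agree_nb h hv (mem_inter.1 hw).1 b]
    exact h1 hw
  · intro h1 hw
    rw [agree_nb h hv (mem_inter.1 hw).1 b]
    exact h1 hw

theorem num_eq (U : Finset V) (T : ℕ) (B : Finset (Fin P)) (h : ∀ y ∈ Sc P G S, ω y = ω' y)
    {v : V} (hv : v ∈ S) : num U T B ω v = num U T B ω' v := by
  unfold num
  congr 1
  ext b
  rw [mem_filter, mem_filter, off_iff U T h hv b]

/-- sums over sets which agree on the support -/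
theorem sum_agree {A A' : Finset V} {f : V → ℝ} (hf : ∀ v, v ∉ S → f v = 0)
    (h : ∀ v ∈ S, (v ∈ A ↔ v ∈ A')) : ∑ v ∈ A, f v = ∑ v ∈ A', f v := by
  have h1 : ∀ B : Finset V, ∑ v ∈ B, f v = ∑ v, if v ∈ B then f v else 0 := by
    intro B
    rw [sum_ite_mem, univ_inter]
  rw [h1 A, h1 A']
  refine sum_congr rfl fun v _ => ?_
  by_cases hv : v ∈ S
  · by_cases hA : v ∈ A
    · rw [if_pos hA, if_pos ((h v hv).1 hA)]
    · rw [if_neg hA, if_neg (fun h' => hA ((h v hv).2 h'))]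
  · rw [hf v hv, ite_self, ite_self]

end scope

/-! ### Probabilities -/

theorem pr_mono {Ω : Type u} [Fintype Ω] {E E' : Ω → Prop} (h : ∀ ω, E ω → E' ω) :
    pr E ≤ pr E' := by
  unfold pr
  refine div_le_div_of_nonneg_right ?_ (Nat.cast_nonneg _)
  exact_mod_cast card_le_card fun ω hω => by
    rw [mem_filter] at hω ⊢
    exact ⟨hω.1, h ω hω.2⟩

theorem pr_false {Ω : Type u} [Fintype Ω] {E : Ω → Prop} (h : ∀ ω, ¬ E ω) : pr E = 0 := by
  unfold pr
  rw [filter_eq_empty_iff.2 (fun ω _ => h ω)]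
  simp

theorem pr_inst {Ω : Type u} (i1 i2 : Fintype Ω) {E : Ω → Prop} {p : ℝ} (h : @pr Ω i1 E ≤ p) :
    @pr Ω i2 E ≤ p := by
  rw [Subsingleton.elim i2 i1]
  exact h

theorem card_inst {α : Type u} [Fintype α] {p : α → Prop} (i1 i2 : DecidablePred p) {t : ℝ}
    (h : ((@Finset.filter α p i1 univ).card : ℝ) ≤ t) :
    ((@Finset.filter α p i2 univ).card : ℝ) ≤ t := by
  rw [Subsingleton.elim i2 i1]
  exact h

/-! ### Numbers -/

theorem num_final {X w Λ : ℝ} (C : ℕ) (hX : 10 ^ 6 ≤ X) (hw : w = Real.exp (X ^ C))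
    (hΛ : Λ = X ^ (C + 3)) {d Xk : ℝ} (hd : d ≤ Real.exp X) (hd0 : 0 ≤ d) (hXk : Xk ≤ d)
    (hXk0 : 0 ≤ Xk) :
    16 * ((2 * d + 4 + w) * Real.exp (-Λ)) * (2 * d * ((w + d * Xk + 2 * d) * (1 + 2 * d)) + 1) *
      ((1 + 2 * d) * (4 * w + 2 * d) + 1) ≤ 1 := by
  have hX0 : 0 < X := by linarith
  have hXC : 1 ≤ X ^ C := one_le_pow₀ (by linarith)
  have hw1 : 1 ≤ w := by rw [hw]; exact Real.one_le_exp (by linarith)
  set Y := Real.exp X with hY
  have hY1 : 10 ^ 6 ≤ Y := by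
    have := Real.add_one_le_exp X
    linarith
  have hY0 : 0 < Y := by linarith
  have hw0 : 0 < w := by linarith
  have he0 : 0 < Real.exp (-Λ) := Real.exp_pos _
  have hdXk : d * Xk ≤ Y * Y := mul_le_mul hd (hXk.trans hd) hXk0 hY0.le
  have hYw : Y ≤ w * Y := by nlinarith
  have hwY : w ≤ w * Y := by nlinarith
  have hYY : Y ≤ Y * Y := by nlinarith
  have hwYY : w * Y ≤ w * Y ^ 2 := by nlinarith
  -- the three factors
  have h1 : 2 * d + 4 + w ≤ 7 * (w * Y) := by nlinarith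
  have h2 : w + d * Xk + 2 * d ≤ 4 * (w * Y ^ 2) := by
    have : Y * Y ≤ w * Y ^ 2 := by nlinarith [sq_nonneg Y]
    nlinarith
  have h3 : (w + d * Xk + 2 * d) * (1 + 2 * d) ≤ 4 * (w * Y ^ 2) * (3 * Y) := by
    apply mul_le_mul h2 (by linarith) (by positivity) (by positivity)
  have h4 : 2 * d * ((w + d * Xk + 2 * d) * (1 + 2 * d)) ≤ 2 * Y * (4 * (w * Y ^ 2) * (3 * Y)) := by
    apply mul_le_mul (by linarith) h3 (by positivity) (by positivity)
  have hbig : 1 ≤ w * Y ^ 4 := by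
    have : 1 ≤ Y ^ 4 := one_le_pow₀ (by linarith)
    nlinarith
  have h5 : 2 * d * ((w + d * Xk + 2 * d) * (1 + 2 * d)) + 1 ≤ 25 * (w * Y ^ 4) := by
    have : 2 * Y * (4 * (w * Y ^ 2) * (3 * Y)) = 24 * (w * Y ^ 4) := by ring
    linarith
  have h6 : 4 * w + 2 * d ≤ 6 * (w * Y) := by nlinarith
  have h7 : (1 + 2 * d) * (4 * w + 2 * d) ≤ 3 * Y * (6 * (w * Y)) := by
    apply mul_le_mul (by linarith) h6 (by positivity) (by positivity)
  have hbig2 : 1 ≤ w * Y ^ 2 := by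
    have : 1 ≤ Y ^ 2 := one_le_pow₀ (by linarith)
    nlinarith
  have h8 : (1 + 2 * d) * (4 * w + 2 * d) + 1 ≤ 19 * (w * Y ^ 2) := by
    have : 3 * Y * (6 * (w * Y)) = 18 * (w * Y ^ 2) := by ring
    linarith
  have h9 : 16 * ((2 * d + 4 + w) * Real.exp (-Λ)) ≤ 16 * (7 * (w * Y) * Real.exp (-Λ)) := by
    have := mul_le_mul_of_nonneg_right h1 he0.le
    linarith
  have h10 : 16 * ((2 * d + 4 + w) * Real.exp (-Λ)) *
      (2 * d * ((w + d * Xk + 2 * d) * (1 + 2 * d)) + 1) ≤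
      16 * (7 * (w * Y) * Real.exp (-Λ)) * (25 * (w * Y ^ 4)) :=
    mul_le_mul h9 h5 (by positivity) (by positivity)
  have h11 : 16 * ((2 * d + 4 + w) * Real.exp (-Λ)) *
      (2 * d * ((w + d * Xk + 2 * d) * (1 + 2 * d)) + 1) *
      ((1 + 2 * d) * (4 * w + 2 * d) + 1) ≤
      16 * (7 * (w * Y) * Real.exp (-Λ)) * (25 * (w * Y ^ 4)) * (19 * (w * Y ^ 2)) :=
    mul_le_mul h10 h8 (by positivity) (by positivity)
  refine h11.trans ?_
  have h12 : 16 * (7 * (w * Y) * Real.exp (-Λ)) * (25 * (w * Y ^ 4)) * (19 * (w * Y ^ 2)) =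
      53200 * (w ^ 3 * Y ^ 7 * Real.exp (-Λ)) := by ring
  rw [h12]
  have h13 : 53200 * (w ^ 3 * Y ^ 7 * Real.exp (-Λ)) ≤ w ^ 3 * Y ^ 8 * Real.exp (-Λ) := by
    have h14 : w ^ 3 * Y ^ 8 * Real.exp (-Λ) = Y * (w ^ 3 * Y ^ 7 * Real.exp (-Λ)) := by ring
    rw [h14]
    exact mul_le_mul_of_nonneg_right (by linarith) (by positivity)
  refine h13.trans ?_
  rw [hw, hY, ← Real.exp_nat_mul, ← Real.exp_nat_mul, ← Real.exp_add, ← Real.exp_add]
  apply Real.exp_le_one_iff.2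
  rw [hΛ, pow_add]
  push_cast
  have h15 : 1000 * X ≤ X ^ 3 := by nlinarith [sq_nonneg X, mul_pos hX0 hX0]
  nlinarith [mul_le_mul hXC h15 (by positivity) (by positivity)]


theorem n_N1D {X d D : ℝ} (A B : ℕ) (hX : 1 < X) (h1 : X ^ (A + B + 1) ≤ d)
    (h2 : d ≤ D * X ^ B) : X ^ A < D := by
  have hXA : 0 < X ^ A := by positivity
  have hXB : 0 < X ^ B := by positivity
  have h3 : X ^ A * X * X ^ B ≤ D * X ^ B := by
    calc X ^ A * X * X ^ B = X ^ (A + B + 1) := by ring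
      _ ≤ _ := h1.trans h2
  have h4 := le_of_mul_le_mul_right h3 hXB
  nlinarith

theorem n_bD {X d D b : ℝ} (A B K m : ℕ) (hX : 1 ≤ X) (hm : A + B + K + 1 ≤ m)
    (h1 : b * X ^ m ≤ d) (h2 : d ≤ D * X ^ B) (hb : 0 ≤ b) : b * X ^ (A + K + 1) ≤ D := by
  have hXB : 0 < X ^ B := by positivity
  have h3 : b * X ^ (A + B + K + 1) ≤ b * X ^ m :=
    mul_le_mul_of_nonneg_left (pow_le_pow_right₀ hX hm) hb
  have h4 : b * X ^ (A + K + 1) * X ^ B ≤ D * X ^ B := by
    calc b * X ^ (A + K + 1) * X ^ B = b * X ^ (A + B + K + 1) := by ring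
      _ ≤ _ := (h3.trans h1).trans h2
  exact le_of_mul_le_mul_right h4 hXB

/-- `c X ^ k ≤ X ^ l` for `k < l` and `c ≤ X` -/
theorem n_pow {X c : ℝ} {k l : ℕ} (hX : 1 ≤ X) (hc : c ≤ X) (hkl : k + 1 ≤ l) :
    c * X ^ k ≤ X ^ l := by
  have h1 : c * X ^ k ≤ X * X ^ k := mul_le_mul_of_nonneg_right hc (by positivity)
  have h2 : X * X ^ k = X ^ (k + 1) := by ring
  rw [h2] at h1
  exact h1.trans (pow_le_pow_right₀ hX hkl)

theorem n_xi1 {X d D : ℝ} (A B E : ℕ) (hX : 2 ≤ X) (hd : 0 < d) (hD : 0 < D)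
    (h2 : d ≤ D * X ^ B) (hE : A + B + 1 ≤ E) : 2 * X ^ A / D ≤ X ^ E / d := by
  rw [div_le_div_iff₀ hD hd]
  have hXA : 0 < X ^ A := by positivity
  calc 2 * X ^ A * d ≤ 2 * X ^ A * (D * X ^ B) := mul_le_mul_of_nonneg_left h2 (by positivity)
    _ = 2 * X ^ (A + B) * D := by ring
    _ ≤ X ^ E * D := mul_le_mul_of_nonneg_right (n_pow (by linarith) hX hE) hD.le

theorem n_xi2 {X d : ℝ} (K C E : ℕ) (hX : 8 ≤ X) (hd : 0 < d) (hE : K + (C + 3) + 1 ≤ E) :
    8 * (X ^ K / d) * X ^ (C + 3) ≤ X ^ E / d := by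
  have h1 : 8 * (X ^ K / d) * X ^ (C + 3) = 8 * X ^ (K + (C + 3)) / d := by
    rw [pow_add]; ring
  rw [h1]
  exact div_le_div_of_nonneg_right (n_pow (by linarith) hX hE) hd.le

theorem n_xi3 {X d : ℝ} (E C F : ℕ) (hX : 64 ≤ X) (hd : 0 < d)
    (h : X ^ (E + (C + 3) + 2 * F + 1) ≤ d) :
    64 * (X ^ E / d) * X ^ (C + 3) ≤ (1 / X ^ F) ^ 2 := by
  have hX0 : 0 < X := by linarith
  have hXF : 0 < X ^ F := by positivity
  have h1 : 64 * (X ^ E / d) * X ^ (C + 3) = 64 * X ^ (E + (C + 3)) / d := by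
    rw [pow_add]; ring
  rw [h1, div_pow, one_pow, div_le_div_iff₀ hd (by positivity), one_mul]
  calc 64 * X ^ (E + (C + 3)) * (X ^ F) ^ 2 = 64 * X ^ (E + (C + 3) + 2 * F) := by ring
    _ ≤ X ^ (E + (C + 3) + 2 * F + 1) := n_pow (by linarith) hX le_rfl
    _ ≤ d := h

theorem n_exp {X d b : ℝ} (C F : ℕ) (hX : 10 ^ 6 ≤ X) (hd0 : 0 ≤ d) (hd : d ≤ Real.exp X)
    (hF : X ^ F ≤ d) (hb : b ≤ d) : 2 * b * Real.exp (-(X ^ (C + 3))) ≤ 1 / X ^ F := by
  have hX0 : 0 < X := by linarith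
  have hXF : 0 < X ^ F := by positivity
  rw [le_div_iff₀ hXF, Real.exp_neg]
  have hE : 0 < Real.exp (X ^ (C + 3)) := Real.exp_pos _
  rw [show 2 * b * (Real.exp (X ^ (C + 3)))⁻¹ * X ^ F = (2 * b * X ^ F) /
    Real.exp (X ^ (C + 3)) by ring, div_le_one hE]
  have h1 : 2 * b * X ^ F ≤ 2 * d * d := by
    calc 2 * b * X ^ F ≤ 2 * d * X ^ F := mul_le_mul_of_nonneg_right (by linarith) hXF.le
      _ ≤ 2 * d * d := mul_le_mul_of_nonneg_left hF (by linarith)
  have h2 : 2 * d * d ≤ Real.exp X * (Real.exp X * Real.exp X) := by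
    have h3 : (2 : ℝ) ≤ Real.exp X := by
      have := Real.add_one_le_exp X
      linarith
    have h4 : d * d ≤ Real.exp X * Real.exp X := mul_le_mul hd hd hd0 (Real.exp_pos _).le
    calc 2 * d * d = 2 * (d * d) := by ring
      _ ≤ Real.exp X * (Real.exp X * Real.exp X) :=
        mul_le_mul h3 h4 (mul_nonneg hd0 hd0) (Real.exp_pos _).le
  rw [← Real.exp_add, ← Real.exp_add] at h2
  refine h1.trans (h2.trans (Real.exp_le_exp.2 ?_))
  have h5 : X ^ 3 ≤ X ^ (C + 3) := pow_le_pow_right₀ (by linarith) (by omega)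
  have h6 : 3 * X ≤ X ^ 3 := by nlinarith [sq_nonneg X]
  linarith

theorem n_sqrt {X d D b e' : ℝ} (A K m : ℕ) (hX : 2100 ≤ X) (hd : 0 < d) (hD : 0 < D)
    (hb : 0 < b) (h1 : b * X ^ m ≤ d) (h2 : b * X ^ (A + K + 1) ≤ D) (he : e' ≤ X ^ K / d) :
    b * Real.sqrt (2100 * e' / D) ≤ 1 := by
  have hX0 : 0 < X := by linarith
  have h3 : Real.sqrt (2100 * e' / D) ≤ 1 / b := by
    rw [Real.sqrt_le_left (by positivity)]
    have h4 : 2100 * e' / D ≤ 2100 * (X ^ K / d) / D :=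
      div_le_div_of_nonneg_right (by linarith) hD.le
    refine h4.trans ?_
    rw [div_pow, one_pow, show 2100 * (X ^ K / d) / D = 2100 * X ^ K / (d * D) by
      field_simp, div_le_div_iff₀ (by positivity) (by positivity), one_mul]
    have h5 : b * X ^ m * (b * X ^ (A + K + 1)) ≤ d * D :=
      mul_le_mul h1 h2 (by positivity) hd.le
    have h6 : 2100 * X ^ K ≤ X ^ m * X ^ (A + K + 1) := by
      have h7 : 2100 * X ^ K ≤ X ^ (A + K + 1) := n_pow (by linarith) hX (by omega)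
      have h8 : 1 ≤ X ^ m := one_le_pow₀ (by linarith)
      have h9 : 0 < X ^ (A + K + 1) := by positivity
      nlinarith
    calc 2100 * X ^ K * b ^ 2 ≤ X ^ m * X ^ (A + K + 1) * b ^ 2 :=
          mul_le_mul_of_nonneg_right h6 (by positivity)
      _ = b * X ^ m * (b * X ^ (A + K + 1)) := by ring
      _ ≤ d * D := h5
  calc b * Real.sqrt (2100 * e' / D) ≤ b * (1 / b) := mul_le_mul_of_nonneg_left h3 hb.le
    _ = 1 := by field_simp

theorem n_mlt {X d D b : ℝ} (A K C m : ℕ) (hX : 64 ≤ X) (hd : 0 < d) (hD : 0 < D) (hb : 0 < b)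
    (hD2 : D ≤ 2 * d) (hB2 : d ≤ 2 * (b * X ^ m)) (h : X ^ (K + (C + 4) + (C + 3) + 2 * m + 1) ≤ d) :
    4 * (X ^ K / d) * X ^ (C + 4) * X ^ (C + 3) ≤ (b * X ^ A / D) ^ 2 := by
  have hX0 : 0 < X := by linarith
  have hXm : 0 < X ^ m := by positivity
  have h1 : 1 / (4 * X ^ m) ≤ b * X ^ A / D := by
    rw [div_le_div_iff₀ (by positivity) hD]
    have h2 : 1 ≤ X ^ A := one_le_pow₀ (by linarith)
    have h3 : b * X ^ m ≤ b * X ^ m * X ^ A := le_mul_of_one_le_right (by positivity) h2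
    nlinarith
  have h4 : (1 / (4 * X ^ m)) ^ 2 ≤ (b * X ^ A / D) ^ 2 := pow_le_pow_left₀ (by positivity) h1 2
  refine le_trans ?_ h4
  rw [show 4 * (X ^ K / d) * X ^ (C + 4) * X ^ (C + 3) = 4 * X ^ (K + (C + 4) + (C + 3)) / d by
    rw [pow_add, pow_add]; ring, div_pow, one_pow, div_le_div_iff₀ hd (by positivity), one_mul]
  calc 4 * X ^ (K + (C + 4) + (C + 3)) * (4 * X ^ m) ^ 2 =
      64 * X ^ (K + (C + 4) + (C + 3) + 2 * m) := by ring
    _ ≤ X ^ (K + (C + 4) + (C + 3) + 2 * m + 1) := n_pow (by linarith) hX le_rfl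
    _ ≤ d := h

theorem n_two {X d b a : ℝ} (K C m : ℕ) (hX : 10 ^ 6 ≤ X) (hd : 0 < d)
    (hB2 : d ≤ 2 * (b * X ^ m)) (ha : 1 / X ^ K ≤ a)
    (h : X ^ (C + 3 + 2 * K + m + 1) ≤ d) : X ^ (C + 3) ≤ a ^ 2 / 300000 * b := by
  have hX0 : 0 < X := by linarith
  have hXm : 0 < X ^ m := by positivity
  have hXK : 0 < X ^ K := by positivity
  have h1 : (1 / X ^ K) ^ 2 ≤ a ^ 2 := pow_le_pow_left₀ (by positivity) ha 2
  have h2 : d / (2 * X ^ m) ≤ b := by
    rw [div_le_iff₀ (by positivity)]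
    linarith
  have h3 : (1 / X ^ K) ^ 2 / 300000 * (d / (2 * X ^ m)) ≤ a ^ 2 / 300000 * b := by
    apply mul_le_mul _ h2 (by positivity) (by positivity)
    exact div_le_div_of_nonneg_right h1 (by norm_num)
  refine le_trans ?_ h3
  rw [div_pow, one_pow, show 1 / (X ^ K) ^ 2 / 300000 * (d / (2 * X ^ m)) =
    d / (600000 * ((X ^ K) ^ 2 * X ^ m)) by field_simp; ring, le_div_iff₀ (by positivity)]
  calc X ^ (C + 3) * (600000 * ((X ^ K) ^ 2 * X ^ m)) = 600000 * X ^ (C + 3 + 2 * K + m) := by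
        ring
    _ ≤ X ^ (C + 3 + 2 * K + m + 1) := n_pow (by linarith) (by linarith) le_rfl
    _ ≤ d := h


/-! ### Events -/

section events
variable {V : Type u} [Fintype V] {P M : ℕ} (G : SimpleGraph V) (U : Finset V) (T : ℕ)
  (B : Finset (Fin P))

theorem dep_dev {S : Finset V} {F : Fin P → V → ℝ} {c : Fin P → ℝ} {ε : ℝ}
    (hF : ∀ b v, v ∉ S → F b v = 0) :
    DepOnI (Sc P G S) (fun ω : Fin P × V → Fin M => ε ≤ |∑ b ∈ B, (∑ v ∈ loc G U T ω b, F b v -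
      c b)|) := by
  intro ω ω' h
  have h1 : ∀ b, ∑ v ∈ loc G U T ω b, F b v = ∑ v ∈ loc G U T ω' b, F b v := fun b =>
    sum_agree (hF b) fun v hv => loc_iff U T h hv b
  simp only [h1]

theorem dep_sgn {S : Finset V} {F : Fin P → V → ℝ} {c : Fin P → ℝ} {ε : ℝ}
    (hF : ∀ b v, v ∉ S → F b v = 0) :
    DepOnI (Sc P G S) (fun ω : Fin P × V → Fin M => ε ≤ ∑ b ∈ B, |∑ v ∈ loc G U T ω b, F b v -
      c b|) := by
  intro ω ω' h
  have h1 : ∀ b, ∑ v ∈ loc G U T ω b, F b v = ∑ v ∈ loc G U T ω' b, F b v := fun b =>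
    sum_agree (hF b) fun v hv => loc_iff U T h hv b
  simp only [h1]

theorem dep_mlt {S : Finset V} {F : Fin P → V → ℝ} {ε : ℝ} (hF : ∀ b v, v ∉ S → F b v = 0) :
    DepOnI (Sc P G S) (fun ω : Fin P × V → Fin M => ε ≤
      ∑ b ∈ B, ∑ v ∈ (off U T ω b).filter (fun v => 2 ≤ num U T B ω v), F b v) := by
  intro ω ω' h
  have h1 : ∀ b, ∑ v ∈ (off U T ω b).filter (fun v => 2 ≤ num U T B ω v), F b v =
      ∑ v ∈ (off U T ω' b).filter (fun v => 2 ≤ num U T B ω' v), F b v := fun b =>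
    sum_agree (hF b) fun v hv => by
      rw [mem_filter, mem_filter, off_iff U T h hv b, num_eq U T B h hv]
  simp only [h1]

theorem dep_upp {S : Finset V} {f : Fin P × V → ℝ} {ε : ℝ} (hf : ∀ y, y.2 ∉ S → f y = 0) :
    DepOnI (Sc P G S) (fun ω : Fin P × V → Fin M => ε ≤
      ∑ y ∈ univ.filter (fun y : Fin P × V => y.2 ∈ off U T ω y.1), f y) := by
  intro ω ω' h
  have h1 : ∑ y ∈ univ.filter (fun y : Fin P × V => y.2 ∈ off U T ω y.1), f y =
      ∑ y ∈ univ.filter (fun y : Fin P × V => y.2 ∈ off U T ω' y.1), f y := by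
    rw [sum_filter, sum_filter]
    refine sum_congr rfl fun y _ => ?_
    by_cases hy : y.2 ∈ S
    · by_cases h2 : y.2 ∈ off U T ω y.1
      · rw [if_pos h2, if_pos ((off_iff U T h hy y.1).1 h2)]
      · rw [if_neg h2, if_neg (fun h3 => h2 ((off_iff U T h hy y.1).2 h3))]
    · rw [hf y hy, ite_self, ite_self]
  simp only [h1]

theorem dep_two {S : Finset V} {H : Prop} {r : ℝ} :
    DepOnI (Sc P G S) (fun ω : Fin P × V → Fin M => H ∧
      ((B.filter (fun b => 2 ≤ (S ∩ loc G U T ω b).card)).card : ℝ) < r) := by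
  intro ω ω' h
  have h1 : ∀ b, S ∩ loc G U T ω b = S ∩ loc G U T ω' b := by
    intro b
    ext v
    rw [mem_inter, mem_inter]
    exact and_congr_right fun hv => loc_iff U T h hv b
  simp only [h1]

end events

theorem loc_sub {V : Type u} [Fintype V] {P M : ℕ} (G : SimpleGraph V) (U : Finset V) (T : ℕ)
    (ω : Fin P × V → Fin M) (b : Fin P) : loc G U T ω b ⊆ off U T ω b := by
  intro v hv
  unfold loc at hv
  unfold off
  rw [mem_filter] at hv ⊢
  exact ⟨hv.1, hv.2.1⟩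

theorem loc_ind {V : Type u} [Fintype V] {P M : ℕ} (G : SimpleGraph V) (U : Finset V) (T : ℕ)
    (ω : Fin P × V → Fin M) (b : Fin P) : ∀ v ∈ loc G U T ω b, ∀ w ∈ loc G U T ω b,
      ¬ G.Adj v w := by
  intro v hv w hw hvw
  unfold loc at hv hw
  rw [mem_filter] at hv hw
  have h1 := hv.2.2 w (mem_inter.2 ⟨(mem_nb G v w).2 hvw, hw.1⟩)
  have h2 := hw.2.2 v (mem_inter.2 ⟨(mem_nb G w v).2 hvw.symm, hv.1⟩)
  omega

/-- `Pv ≤ 4 / D` -/
theorem Pv_le (hPNB : Stmt_PNB) {V : Type u} [Fintype V] (G : SimpleGraph V) (U : Finset V)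
    {D N1 : ℕ} (hN1 : 1 ≤ N1) (hND : N1 < D) {v : V} (hv : D ≤ 4 * (nb G v ∩ U).card) :
    Pv G U (D * N1) (N1 ^ 2) v ≤ 4 / D ∧ 0 ≤ Pv G U (D * N1) (N1 ^ 2) v := by
  have hD : 0 < D := by omega
  have h1 : N1 ^ 2 + 1 ≤ D * N1 := by nlinarith
  obtain ⟨h2, _, h3⟩ := hPNB (D * N1) (N1 ^ 2) (nb G v ∩ U).card (Nat.mul_pos hD (by omega)) h1
  refine ⟨?_, h3⟩
  unfold Pv
  refine h2.trans ?_
  have hD' : (0 : ℝ) < D := by exact_mod_cast hD
  rw [div_le_div_iff₀ (by positivity) hD']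
  have h4 : (D : ℝ) ≤ 4 * (nb G v ∩ U).card := by exact_mod_cast hv
  linarith

theorem stmt_BATCH (hSYM : Stmt_SYM.{u}) (hOFFX : Stmt_OFFX.{u}) (hDEV : Stmt_DEV.{u})
    (hSGN : Stmt_SGN.{u}) (hMLT : Stmt_MLT.{u}) (hTWO : Stmt_TWO.{u}) (hPNB : Stmt_PNB) :
    Stmt_BATCH.{u} := by
  intro A B C K F m hm
  refine ⟨2 * (A + B + C + K + F + m) + 100, 10 ^ 6, ?_⟩
  intro V _ G d x P D U Bt a τ J R _ _ _ Sτ Ft SJ g e Q hx0 hlog hN hP hD2 hDB hB1 hB2 ha1 ha2
    hnb hD hU hT hS hR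
  -- real numbers
  set X : ℝ := (x : ℝ) with hXdef
  have hX6 : (10 : ℝ) ^ 6 ≤ X := by
    rw [hXdef]; exact_mod_cast hx0
  have hX1 : (1 : ℝ) ≤ X := by linarith
  have hx1 : 1 ≤ x := le_trans (by norm_num) hx0
  have hpow : ∀ k, k ≤ 2 * (A + B + C + K + F + m) + 100 → X ^ k ≤ (d : ℝ) := by
    intro k hk
    refine (pow_le_pow_right₀ hX1 hk).trans ?_
    rw [hXdef]; exact_mod_cast hN
  have hd1 : (1 : ℝ) ≤ d := by simpa using hpow 0 (by omega)
  have hd0 : (0 : ℝ) < d := by linarith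
  have hde : (d : ℝ) ≤ Real.exp X := by
    calc (d : ℝ) = Real.exp (Real.log d) := (Real.exp_log hd0).symm
      _ ≤ _ := Real.exp_le_exp.2 hlog
  have hDB' : (d : ℝ) ≤ (D : ℝ) * X ^ B := by rw [hXdef]; exact_mod_cast hDB
  have hB1' : (Bt.card : ℝ) * X ^ m ≤ d := by rw [hXdef]; exact_mod_cast hB1
  have hB2' : (d : ℝ) ≤ 2 * ((Bt.card : ℝ) * X ^ m) := by rw [hXdef]; exact_mod_cast hB2
  have hD2' : (D : ℝ) ≤ 2 * d := by exact_mod_cast hD2
  have hP' : (P : ℝ) ≤ 2 * d := by exact_mod_cast hP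
  have hb0 : (0 : ℝ) < Bt.card := by
    by_contra hneg
    push Not at hneg
    have h1 : (Bt.card : ℝ) = 0 := le_antisymm hneg (Nat.cast_nonneg _)
    rw [h1] at hB2'
    linarith
  have hN1D' : X ^ A < D := n_N1D A B (by linarith) (hpow _ (by omega)) hDB'
  have hN1D : x ^ A < D := by
    rw [hXdef] at hN1D'; exact_mod_cast hN1D'
  have hN11 : 1 ≤ x ^ A := Nat.one_le_pow _ _ hx1
  have hXA1 : 1 ≤ X ^ A := one_le_pow₀ hX1
  have hD0 : (0 : ℝ) < D := by linarith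
  have hD4 : 4 ≤ D := by
    have h1 : X ^ 1 ≤ (D : ℝ) := by
      have h2 := n_N1D (d := (d : ℝ)) 1 B (by linarith) (hpow _ (by omega)) hDB'
      exact h2.le
    rw [pow_one] at h1
    have h3 : (4 : ℝ) ≤ D := by linarith
    exact_mod_cast h3
  have hbD : (Bt.card : ℝ) * X ^ (A + K + 1) ≤ D := n_bD A B K m hX1 hm hB1' hDB' hb0.le
  have hXm1 : 1 ≤ X ^ m := one_le_pow₀ hX1
  have hbd : (Bt.card : ℝ) ≤ d :=
    (le_mul_of_one_le_right hb0.le hXm1).trans hB1'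
  have hND : ((x ^ A : ℕ) : ℝ) = X ^ A := by rw [hXdef]; push_cast; rfl
  set Λ : ℝ := X ^ (C + 3) with hΛ
  have hΛ0 : 0 ≤ Λ := by positivity
  set w : ℝ := Real.exp (X ^ C) with hw
  have hw1 : 1 ≤ w := Real.one_le_exp (by positivity)
  set E : ℕ := A + B + C + K + 10 with hE
  set ξ : ℝ := X ^ E / d with hξ
  have hK0 : (0 : ℝ) < X ^ K / d := by positivity
  have hXKd : X ^ K ≤ (d : ℝ) := hpow K (by omega)
  have hXF0 : (0 : ℝ) < X ^ F := by positivity
  have hε0 : (0 : ℝ) < 1 / X ^ F := by positivity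
  have hε1 : (1 : ℝ) / X ^ F ≤ 1 := by
    rw [div_le_one hXF0]; exact one_le_pow₀ hX1
  have hξ1 : 2 * ((x ^ A : ℕ) : ℝ) / D ≤ ξ := by
    rw [hND]; exact n_xi1 A B E (by linarith) hd0 hD0 hDB' (by omega)
  have hξ2 : 8 * (X ^ K / d) * Λ ≤ ξ := n_xi2 K C E (by linarith) hd0 (by omega)
  have hξ3 : 64 * ξ * Λ ≤ (1 / X ^ F) ^ 2 := n_xi3 E C F (by linarith) hd0 (hpow _ (by omega))
  have hexp : 2 * (Bt.card : ℝ) * Real.exp (-Λ) ≤ 1 / X ^ F :=
    n_exp C F hX6 hd0.le hde (hpow F (by omega)) hbd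
  have hdeg : ∀ v, (nb G v).card ≤ 2 * d := hnb
  have hΛe : 0 < Real.exp (-Λ) := Real.exp_pos _
  set p : ℝ := (2 * d + 4 + w) * Real.exp (-Λ) with hp
  have hp0 : 0 ≤ p := by positivity
  have hple : ∀ r : ℝ, r ≤ 2 * d + 4 + w → r * Real.exp (-Λ) ≤ p := fun r hr =>
    mul_le_mul_of_nonneg_right hr hΛe.le
  -- the sample space
  set M : ℕ := D * x ^ A with hM
  have hM0 : 0 < M := Nat.mul_pos (by omega) (by omega)
  set T : ℕ := (x ^ A) ^ 2 with hTdef
  let PR : V → ℝ := Pv G U M T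
  let E1 : τ → (Fin P × V → Fin M) → Prop := fun j ω =>
    1 / X ^ F ≤ |∑ b ∈ Bt, (∑ v ∈ loc G U T ω b, Ft j b v - ∑ v ∈ U, PR v * Ft j b v)|
  let E2 : τ → (Fin P × V → Fin M) → Prop := fun j ω =>
    2 * (Bt.card * ((x ^ A : ℕ) : ℝ) / D) ^ 2 ≤
      ∑ b ∈ Bt, ∑ v ∈ (off U T ω b).filter (fun v => 2 ≤ num U T Bt ω v), Ft j b v
  let e' : J → ℝ := fun j => min (e j / d) (X ^ K / d)
  let E3 : J → (Fin P × V → Fin M) → Prop := fun j ω =>
    Bt.card * Real.sqrt (2100 * e' j / D) + 1 / X ^ F ≤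
      ∑ b ∈ Bt, |∑ v ∈ loc G U T ω b, g j b v - ∑ v ∈ U, PR v * g j b v|
  let fq : R → Fin P × V → ℝ := fun q y => if y ∈ Q q ∧ y.1 ∈ Bt then 1 else 0
  let E4 : R → (Fin P × V → Fin M) → Prop := fun q ω => X ^ (A + B + C + K + 5) ≤
    ∑ y ∈ univ.filter (fun y : Fin P × V => y.2 ∈ off U T ω y.1), fq q y
  let E5 : V → (Fin P × V → Fin M) → Prop := fun v ω =>
    a * (D : ℝ) ^ 2 ≤ ((mis G (nb G v ∩ U)).card : ℝ) ∧
      ((Bt.filter (fun b => 2 ≤ (nb G v ∩ loc G U T ω b).card)).card : ℝ) < a / 256 * Bt.card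
  let S4 : R → Finset V := fun q => (Q q).image Prod.snd
  let EE : (τ ⊕ τ) ⊕ (J ⊕ (R ⊕ V)) → (Fin P × V → Fin M) → Prop :=
    Sum.elim (Sum.elim E1 E2) (Sum.elim E3 (Sum.elim E4 E5))
  let SS : (τ ⊕ τ) ⊕ (J ⊕ (R ⊕ V)) → Finset V :=
    Sum.elim (Sum.elim Sτ Sτ) (Sum.elim SJ (Sum.elim S4 (nb G)))
  -- probabilities
  have hb2d : (Bt.card : ℝ) + 2 ≤ 2 * d + 4 + w := by linarith
  have p1 : ∀ j, pr (E1 j) ≤ p := by
    intro j
    refine (hDEV P D (x ^ A) G U Bt (Ft j) (X ^ K / d) ξ Λ (1 / X ^ F) hN11 hN1D hK0 hΛ0 hε0 hε1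
      (hT.nn j) (hT.le j) (hT.sum j) ?_ hξ1 hξ2 hξ3 hexp).trans (hple _ hb2d)
    have h1 : ∀ b ∈ Bt, ∑ v ∈ U, Pv G U (D * x ^ A) ((x ^ A) ^ 2) v * Ft j b v ≤ 4 / D := by
      intro b _
      calc ∑ v ∈ U, Pv G U (D * x ^ A) ((x ^ A) ^ 2) v * Ft j b v ≤
          ∑ v ∈ U, 4 / (D : ℝ) * Ft j b v := sum_le_sum fun v hv =>
            mul_le_mul_of_nonneg_right (Pv_le hPNB G U hN11 hN1D (hU v hv)).1 (hT.nn j b v)
        _ = 4 / (D : ℝ) * ∑ v ∈ U, Ft j b v := by rw [mul_sum]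
        _ ≤ 4 / (D : ℝ) * 1 := by
            refine mul_le_mul_of_nonneg_left ?_ (by positivity)
            exact (sum_le_sum_of_subset_of_nonneg (subset_univ U) fun v _ _ => hT.nn j b v).trans
              (hT.sum j b)
        _ = 4 / D := mul_one _
    refine (sum_le_card_nsmul _ _ _ h1).trans ?_
    rw [nsmul_eq_mul, ← mul_div_assoc, div_le_one hD0]
    have h2 : 4 ≤ X ^ (A + K + 1) := by
      have h3 := n_pow (X := X) (c := 4) (k := 0) (l := A + K + 1) hX1 (by linarith) (by omega)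
      simpa using h3
    calc (Bt.card : ℝ) * 4 ≤ Bt.card * X ^ (A + K + 1) := mul_le_mul_of_nonneg_left h2 hb0.le
      _ ≤ D := hbD
  have p2 : ∀ j, pr (E2 j) ≤ p := by
    intro j
    have h1 : (Bt.card : ℝ) * ((x ^ A : ℕ) : ℝ) / D ≤ 1 := by
      rw [hND, div_le_one hD0]
      refine le_trans (mul_le_mul_of_nonneg_left ?_ hb0.le) hbD
      exact pow_le_pow_right₀ hX1 (by omega)
    have h2 : 8 * Λ ≤ X ^ (C + 4) := n_pow hX1 (by linarith) (by omega)
    have h3 : 1 ≤ X ^ (C + 4) := one_le_pow₀ hX1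
    have h4 : 1 ≤ Λ := one_le_pow₀ hX1
    refine (hMLT P D (x ^ A) U (Sτ j) Bt (Ft j) (X ^ K / d) Λ (X ^ (C + 4)) hN11 hN1D hK0 hΛ0 h3
      (hT.nn j) (hT.le j) (hT.sum j) (fun b v => hT.sup j b v) (by exact_mod_cast hb0)
      (by linarith) h2 ?_).trans ?_
    · rw [hND]
      exact n_mlt A K C m (by linarith) hd0 hD0 hb0 hD2' hB2' (hpow _ (by omega))
    · refine hple _ ?_
      have := hT.card j
      linarith
  have p3 : ∀ j, pr (E3 j) ≤ p := by
    intro j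
    have he0 : 0 ≤ e' j := le_min (hS.e0 j) hK0.le
    refine (hSGN P D (x ^ A) G U Bt (g j) (X ^ K / d) ξ Λ (1 / X ^ F) (e' j) hD4 hN11 hN1D hK0 hΛ0
      hε0 hε1 hD hU (hS.le j) (hS.sum j) ?_ he0
      (n_sqrt A K m (by linarith) hd0 hD0 hb0 hB1' hbD (min_le_right _ _)) hξ1 hξ2 hξ3).trans
      (hple _ (by linarith))
    intro b
    have h1 : ∑ v ∈ U, g j b v ^ 2 ≤ ∑ v, g j b v ^ 2 :=
      sum_le_sum_of_subset_of_nonneg (subset_univ U) fun v _ _ => sq_nonneg _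
    refine le_min (h1.trans (hS.sq j b)) (h1.trans ?_)
    calc ∑ v, g j b v ^ 2 ≤ ∑ v, X ^ K / d * |g j b v| := by
          refine sum_le_sum fun v _ => ?_
          rw [← sq_abs, sq]
          exact mul_le_mul_of_nonneg_right (hS.le j b v) (abs_nonneg _)
      _ = X ^ K / d * ∑ v, |g j b v| := by rw [mul_sum]
      _ ≤ X ^ K / d * 1 := mul_le_mul_of_nonneg_left (hS.sum j b) hK0.le
      _ = X ^ K / d := mul_one _
  have p4 : ∀ q, pr (E4 q) ≤ p := by
    intro q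
    have hs0 : (0 : ℝ) < d * X ^ K := by positivity
    have h1 := hOFFX P M T U (fq q) (((x ^ A : ℕ) : ℝ) / D) 1 (d * X ^ K)
      (X ^ (A + B + C + K + 5)) Λ hM0 ?_ (by rw [hND]; positivity) one_pos hs0 hΛ0 ?_ ?_ ?_ ?_ ?_
    · refine h1.trans ?_
      have := hple 1 (by linarith)
      linarith
    · rw [hTdef, hM]
      push_cast
      rw [show ((x : ℝ) ^ A / D) * (D * (x : ℝ) ^ A) = (x : ℝ) ^ A * (x : ℝ) ^ A by
        field_simp, sq]
    · intro y
      simp only [fq]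
      split_ifs <;> norm_num
    · intro y
      simp only [fq]
      split_ifs <;> norm_num
    · have h2 : ∑ y, fq q y = (((Q q).filter (fun y => y.1 ∈ Bt)).card : ℝ) := by
        simp only [fq]
        rw [← sum_filter, sum_const, nsmul_eq_mul, mul_one]
        congr 2
        ext y
        simp [mem_filter]
      rw [h2]
      refine le_trans ?_ (hR.card q)
      exact_mod_cast card_le_card (filter_subset _ _)
    · rw [hND]
      have h3 : 2 * (X ^ A / D) * (d * X ^ K) ≤ 2 * X ^ (A + B + K) := by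
        rw [show 2 * (X ^ A / (D : ℝ)) * (d * X ^ K) = 2 * (X ^ A * d * X ^ K) / D by ring,
          div_le_iff₀ hD0]
        calc 2 * (X ^ A * d * X ^ K) ≤ 2 * (X ^ A * (D * X ^ B) * X ^ K) := by
              refine mul_le_mul_of_nonneg_left ?_ (by norm_num)
              refine mul_le_mul_of_nonneg_right ?_ (by positivity)
              exact mul_le_mul_of_nonneg_left hDB' (by positivity)
          _ = 2 * X ^ (A + B + K) * D := by ring
      exact h3.trans (n_pow hX1 (by linarith) (by omega))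
    · rw [mul_one]
      exact n_pow hX1 (by linarith) (by omega)
  have p5 : ∀ v, pr (E5 v) ≤ p := by
    intro v
    by_cases hH : a * (D : ℝ) ^ 2 ≤ ((mis G (nb G v ∩ U)).card : ℝ)
    · have ha0 : 0 < a := lt_of_lt_of_le (by positivity) ha1
      have h1 := hTWO P D (x ^ A) G U Bt v a (by omega) hN11 hN1D ha0 ha2 hD hH
      refine (pr_mono fun ω hω => hω.2).trans (h1.trans ?_)
      have h2 : Λ ≤ a ^ 2 / 300000 * Bt.card :=
        n_two K C m hX6 hd0 hB2' ha1 (hpow _ (by omega))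
      refine (Real.exp_le_exp.2 (neg_le_neg h2)).trans ?_
      have := hple 1 (by linarith)
      linarith
    · rw [pr_false fun ω hω => hH hω.1]
      exact hp0
  -- scopes
  have hdep : ∀ k, DepOnI (Sc P G (SS k)) (EE k) := by
    rintro ((j | j) | (j | (q | v)))
    · exact dep_dev G U T Bt (fun b v hv => hT.sup j b v hv)
    · exact dep_mlt G U T Bt (fun b v hv => hT.sup j b v hv)
    · exact dep_sgn G U T Bt (fun b v hv => hS.sup j b v hv)
    · refine dep_upp G U T ?_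
      intro y hy
      simp only [fq]
      rw [if_neg]
      intro hQ
      exact hy (mem_image_of_mem Prod.snd hQ.1)
    · exact dep_two G U T Bt
  have hcard : ∀ k, ((SS k).card : ℝ) ≤ w + d * X ^ K + 2 * d := by
    have hdX : 0 ≤ (d : ℝ) * X ^ K := by positivity
    rintro ((j | j) | (j | (q | v)))
    · have := hT.card j
      simp only [SS, Sum.elim_inl, Sum.elim_inr]
      linarith
    · have := hT.card j
      simp only [SS, Sum.elim_inl, Sum.elim_inr]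
      linarith
    · have := hS.card j
      simp only [SS, Sum.elim_inl, Sum.elim_inr]
      linarith
    · have h1 := hR.card q
      have h2 : ((S4 q).card : ℝ) ≤ ((Q q).card : ℝ) := by exact_mod_cast card_image_le
      simp only [SS, Sum.elim_inl, Sum.elim_inr]
      linarith
    · have h1 : ((nb G v).card : ℝ) ≤ 2 * d := by exact_mod_cast hnb v
      simp only [SS, Sum.elim_inl, Sum.elim_inr]
      linarith
  have hmult : ∀ v, ((univ.filter (fun k => v ∈ SS k)).card : ℝ) ≤ 4 * w + 2 * d := by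
    intro v
    have h1 : ((univ.filter (fun k => v ∈ SS k)).card : ℝ) =
        (((univ.filter (fun j => v ∈ Sτ j)).card : ℝ) + (univ.filter (fun j => v ∈ Sτ j)).card) +
          ((univ.filter (fun j => v ∈ SJ j)).card +
            ((univ.filter (fun q => v ∈ S4 q)).card + (univ.filter (fun w => v ∈ nb G w)).card)) := by
      simp only [card_filter, Fintype.sum_sum_type, SS, Sum.elim_inl, Sum.elim_inr]
      push_cast
      rfl
    rw [h1]
    have h2 := hT.mul v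
    have h3 := hS.mul v
    have h4 : ((univ.filter (fun q => v ∈ S4 q)).card : ℝ) ≤ w := by
      refine le_trans ?_ (hR.mul v)
      have : univ.filter (fun q => v ∈ S4 q) ⊆ univ.filter (fun q => ∃ b, (b, v) ∈ Q q) := by
        intro q hq
        rw [mem_filter] at hq ⊢
        obtain ⟨y, hy, hyv⟩ := mem_image.1 hq.2
        exact ⟨mem_univ _, y.1, by rw [← hyv]; exact hy⟩
      exact_mod_cast card_le_card this
    have h5 : ((univ.filter (fun w => v ∈ nb G w)).card : ℝ) ≤ 2 * d := by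
      have : univ.filter (fun w => v ∈ nb G w) = nb G v := by
        ext w
        rw [mem_filter, mem_nb, mem_nb]
        exact ⟨fun h => h.2.symm, fun h => ⟨mem_univ _, h.symm⟩⟩
      rw [this]
      exact_mod_cast hnb v
    linarith
  have hs0 : 0 ≤ 2 * (d : ℝ) * ((w + d * X ^ K + 2 * d) * (1 + 2 * d)) := by positivity
  have ht0 : 0 ≤ (1 + 2 * (d : ℝ)) * (4 * w + 2 * d) := by positivity
  obtain ⟨ω, hω⟩ := hSYM (Fin P × V) M ((τ ⊕ τ) ⊕ (J ⊕ (R ⊕ V))) (fun k => Sc P G (SS k)) EE p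
    (2 * d * ((w + d * X ^ K + 2 * d) * (1 + 2 * d))) ((1 + 2 * d) * (4 * w + 2 * d)) hM0 hs0 ht0
    hdep (by
      intro k
      have h1 : ((Sc P G (SS k)).card : ℝ) ≤ (P : ℝ) * ((SS k).card * (1 + 2 * d)) := by
        exact_mod_cast card_Sc (P := P) G (SS k) hdeg
      refine h1.trans ?_
      apply mul_le_mul hP' _ (by positivity) (by positivity)
      exact mul_le_mul_of_nonneg_right (hcard k) (by positivity)) (by
      intro y
      have h1 := mult_Sc (P := P) G SS hdeg hmult (by positivity) y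
      refine card_inst _ _ (h1.trans (le_of_eq ?_))
      push_cast
      ring) hp0 (by
      rintro ((j | j) | (j | (q | v)))
      · exact pr_inst _ _ (p1 j)
      · exact pr_inst _ _ (p2 j)
      · exact pr_inst _ _ (p3 j)
      · exact pr_inst _ _ (p4 q)
      · exact pr_inst _ _ (p5 v))
    (num_final C hX6 rfl rfl hde hd0.le hXKd (by positivity))
  refine ⟨loc G U T ω, off U T ω, ?_⟩
  constructor
  · exact fun b => loc_sub G U T ω b
  · exact fun b => filter_subset _ _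
  · exact fun b => loc_ind G U T ω b
  · intro j
    have h1 := hω (Sum.inl (Sum.inl j))
    exact (not_le.1 h1).le
  · intro j
    have h1 := (not_le.1 (hω (Sum.inl (Sum.inr j)))).le
    rw [hND] at h1
    exact h1
  · intro j
    have h1 := (not_le.1 (hω (Sum.inr (Sum.inl j)))).le
    refine h1.trans ?_
    have h2 : Real.sqrt (2100 * e' j / D) ≤ Real.sqrt (2100 * (e j / d) / D) := by
      apply Real.sqrt_le_sqrt
      refine div_le_div_of_nonneg_right ?_ hD0.le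
      exact mul_le_mul_of_nonneg_left (min_le_left _ _) (by norm_num)
    have h3 := mul_le_mul_of_nonneg_left h2 hb0.le
    linarith
  · intro q
    have h1 := (not_le.1 (hω (Sum.inr (Sum.inr (Sum.inl q))))).le
    refine le_trans (le_of_eq ?_) h1
    simp only [fq]
    rw [← sum_filter, sum_const, nsmul_eq_mul, mul_one]
    congr 2
    ext y
    simp only [mem_filter, mem_univ, true_and]
    tauto
  · intro v hv
    have h1 := hω (Sum.inr (Sum.inr (Sum.inr v)))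
    by_contra hneg
    exact h1 ⟨hv, not_le.1 hneg⟩

end Pool.Agent.Work.MP_db9399_ow.helper72
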